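import Pool.Agent.helper11.RPQ.SpecU
import Pool.Agent.helper62.RS.GLC
import Pool.Agent.helper92.RS.GMG

set_option autoImplicit false

open scoped MatrixGroups ContDiff Topology UpperHalfPlane ComplexConjugate
open UpperHalfPlane MeasureTheory Filter Set

namespace Pool.Agent.RPQ

open Pool.Agent.RS
open Pool.Agent.MS (BA BB st pf gk Dk amk)

noncomputable section

/-- `Γ` is countable -/
theorem MEX_count {Γ : Subgroup SL(2, ℝ)} (hΓ : QU.SurfaceGroup Γ) : Countable Γ := by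
  have h1 : (Set.univ : Set Γ) = ⋃ n : ℕ, {γ : Γ | ∃ z ∈ Metric.closedBall (I : ℍ) n, γ • z ∈ Metric.closedBall (I : ℍ) n} := by
    symm
    rw [Set.eq_univ_iff_forall]
    intro γ
    obtain ⟨n, hn⟩ := exists_nat_ge (dist (γ • (I : ℍ)) I)
    rw [Set.mem_iUnion]
    refine ⟨n, I, ?_, ?_⟩
    · rw [Metric.mem_closedBall, dist_self]
      positivity
    · rw [Metric.mem_closedBall]
      exact hn
  rw [← Set.countable_univ_iff, h1]
  exact Set.countable_iUnion fun n => (hΓ.discrete _ (isCompact_closedBall I n)).countable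

/-- finitely many `γ` -/
theorem MEX_fin {Γ : Subgroup SL(2, ℝ)} (hΓ : QU.SurfaceGroup Γ) (D : ℝ) (g h : SL(2, ℝ)) :
    {γ : Γ | dist (g • I : ℍ) (((γ : SL(2, ℝ)) * h) • I) ≤ D}.Finite := by
  have hK : IsCompact (Metric.closedBall (g • I : ℍ) D ∪ {h • I}) :=
    (isCompact_closedBall _ _).union isCompact_singleton
  refine (hΓ.discrete _ hK).subset ?_
  intro γ hγ
  refine ⟨h • I, Or.inr rfl, Or.inl ?_⟩
  rw [Metric.mem_closedBall, dist_comm]
  have h1 : ((γ : SL(2, ℝ)) * h) • (I : ℍ) = γ • (h • (I : ℍ)) := by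
    rw [mul_smul]
    rfl
  rw [← h1]
  exact hγ

section

variable {J : ℕ} (χ : Fin J → ℍ → ℝ)

theorem MEX_th (hχ : ∀ j, Continuous (χ j)) (K t : ℝ) :
    Continuous fun q : (Fin J → ℝ) × SL(2, ℝ) => th (VV χ q.1) K t q.2 := by
  unfold th
  refine continuous_const.mul ?_
  refine intervalIntegral.continuous_parametric_intervalIntegral_of_continuous' ?_ 0 t
  have haM : Continuous aM := GLC.2.2.2.1
  show Continuous fun p : ((Fin J → ℝ) × SL(2, ℝ)) × ℝ => VV χ p.1.1 ((p.1.2 * aM p.2) • (I : ℍ))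
  unfold VV
  refine continuous_finsetSum _ fun j _ => ?_
  refine ((continuous_apply j).comp (continuous_fst.comp continuous_fst)).mul ((hχ j).comp ?_)
  exact ((continuous_snd.comp continuous_fst).mul (haM.comp continuous_snd)).smul continuous_const

variable (K t : ℝ) (u : SL(2, ℝ) → ℂ) (A : Set SL(2, ℝ))

theorem MEX_st (hχ : ∀ j, Continuous (χ j)) (hu : Measurable u) :
    Measurable fun p : ((Fin J → ℝ) × SL(2, ℝ)) × SL(2, ℝ) => stK (VV χ p.1.1) K t u p.1.2 p.2 := by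
  have : SecondCountableTopology SL(2, ℝ) := GLC.2.1
  have h1 : Measurable fun q : (Fin J → ℝ) × SL(2, ℝ) => th (VV χ q.1) K t q.2 := (MEX_th χ hχ K t).measurable
  have h2 : Measurable fun p : ((Fin J → ℝ) × SL(2, ℝ)) × SL(2, ℝ) => (p.1.2 * aM t)⁻¹ * p.2 := by
    refine Continuous.measurable ?_
    exact (((continuous_snd.comp continuous_fst).mul continuous_const).inv).mul continuous_snd
  unfold stK
  refine Measurable.mul ?_ (hu.comp h2)
  refine Complex.measurable_exp.comp ?_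
  refine Measurable.mul_const ?_ _
  exact Complex.measurable_ofReal.comp (h1.comp measurable_fst)

theorem MEX_cmp (hs : SigmaFinite mG) (f g : (Fin J → ℝ) → SL(2, ℝ) → SL(2, ℝ) → ℂ)
    (hf : Measurable fun p : ((Fin J → ℝ) × SL(2, ℝ)) × SL(2, ℝ) => f p.1.1 p.1.2 p.2)
    (hg : Measurable fun p : ((Fin J → ℝ) × SL(2, ℝ)) × SL(2, ℝ) => g p.1.1 p.1.2 p.2) :
    Measurable fun p : ((Fin J → ℝ) × SL(2, ℝ)) × SL(2, ℝ) => cmp (f p.1.1) (g p.1.1) p.1.2 p.2 := by
  unfold cmp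
  have h1 : Measurable fun q : (((Fin J → ℝ) × SL(2, ℝ)) × SL(2, ℝ)) × SL(2, ℝ) =>
      f q.1.1.1 q.1.1.2 q.2 * g q.1.1.1 q.2 q.1.2 := by
    refine Measurable.mul ?_ ?_
    · exact hf.comp ((measurable_fst.comp measurable_fst).prodMk measurable_snd)
    · exact hg.comp (((measurable_fst.comp (measurable_fst.comp measurable_fst)).prodMk measurable_snd).prodMk
        (measurable_snd.comp measurable_fst))
  exact (h1.stronglyMeasurable.integral_prod_right' (ν := mG)).measurable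

theorem MEX_it (hs : SigmaFinite mG) (hχ : ∀ j, Continuous (χ j)) (hu : Measurable u) (n : ℕ) :
    Measurable fun p : ((Fin J → ℝ) × SL(2, ℝ)) × SL(2, ℝ) => itK (VV χ p.1.1) K t u n p.1.2 p.2 := by
  induction n with
  | zero => exact MEX_st χ K t u hχ hu
  | succ n ih => exact MEX_cmp hs (fun ξ => stK (VV χ ξ) K t u) (fun ξ => itK (VV χ ξ) K t u n) (MEX_st χ K t u hχ hu) ih

theorem MEX_wd (hs : SigmaFinite mG) (hχ : ∀ j, Continuous (χ j)) (hu : Measurable u) (hA : MeasurableSet A) (l : List ℕ) :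
    Measurable fun p : ((Fin J → ℝ) × SL(2, ℝ)) × SL(2, ℝ) => wdK (VV χ p.1.1) K t u A l p.1.2 p.2 := by
  have hi : Measurable (A.indicator (fun _ => (1 : ℂ))) := measurable_const.indicator hA
  induction l with
  | nil => exact measurable_const
  | cons n l ih =>
    cases l with
    | nil =>
      show Measurable fun p : ((Fin J → ℝ) × SL(2, ℝ)) × SL(2, ℝ) =>
        A.indicator (fun _ => (1 : ℂ)) p.1.2 * itK (VV χ p.1.1) K t u n p.1.2 p.2 * A.indicator (fun _ => (1 : ℂ)) p.2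
      exact ((hi.comp (measurable_snd.comp measurable_fst)).mul (MEX_it χ K t u hs hχ hu n)).mul (hi.comp measurable_snd)
    | cons m l =>
      show Measurable fun p : ((Fin J → ℝ) × SL(2, ℝ)) × SL(2, ℝ) =>
        cmp (fun g h => A.indicator (fun _ => (1 : ℂ)) g * itK (VV χ p.1.1) K t u n g h)
          (wdK (VV χ p.1.1) K t u A (m :: l)) p.1.2 p.2
      exact MEX_cmp hs (fun ξ g h => A.indicator (fun _ => (1 : ℂ)) g * itK (VV χ ξ) K t u n g h)
        (fun ξ => wdK (VV χ ξ) K t u A (m :: l))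
        ((hi.comp (measurable_snd.comp measurable_fst)).mul (MEX_it χ K t u hs hχ hu n)) ih

end

/-! ## Finite range -/

/-- kernels of finite range -/
def MEX_R (k : SL(2, ℝ) → SL(2, ℝ) → ℂ) : Prop := ∃ D : ℝ, ∀ g h, k g h ≠ 0 → dist (g • I : ℍ) (h • I) ≤ D

theorem MEX_R_cmp {k l : SL(2, ℝ) → SL(2, ℝ) → ℂ} (hk : MEX_R k) (hl : MEX_R l) : MEX_R (cmp k l) := by
  obtain ⟨D, hD⟩ := hk
  obtain ⟨D', hD'⟩ := hl
  refine ⟨D + D', fun g h hne => ?_⟩
  obtain ⟨p, hp⟩ : ∃ p, k g p * l p h ≠ 0 := by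
    by_contra hcon
    apply hne
    rw [cmp]
    have h0 : ∀ p, k g p * l p h = 0 := fun p => by
      by_contra h1
      exact hcon ⟨p, h1⟩
    simp [h0]
  have h1 := hD g p (left_ne_zero_of_mul hp)
  have h2 := hD' p h (right_ne_zero_of_mul hp)
  exact (dist_triangle (g • I : ℍ) (p • I) (h • I)).trans (add_le_add h1 h2)

theorem MEX_box (D : ℝ) : IsCompact {b : SL(2, ℝ) | ∀ i j, |b.1 i j| ≤ D} := by
  have h1 : IsCompact {M : Matrix (Fin 2) (Fin 2) ℝ | ∀ i j, |M i j| ≤ D} := by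
    have h2 : {M : Matrix (Fin 2) (Fin 2) ℝ | ∀ i j, |M i j| ≤ D} =
        Set.pi Set.univ fun _ : Fin 2 => Set.pi Set.univ fun _ : Fin 2 => Set.Icc (-D) D := by
      ext M
      constructor
      · intro h i _ j _
        exact abs_le.mp (h i j)
      · intro h i j
        exact abs_le.mpr (h i trivial j trivial)
    rw [h2]
    exact isCompact_univ_pi fun _ => isCompact_univ_pi fun _ => isCompact_Icc
  exact Matrix.SpecialLinearGroup.isClosedEmbedding_val.isCompact_preimage h1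

theorem MEX_R_st (V : ℍ → ℝ) (K t : ℝ) (u : SL(2, ℝ) → ℂ) (hu : ∃ D : ℝ, ∀ b, u b ≠ 0 → ∀ i j, |b.1 i j| ≤ D) :
    MEX_R (stK V K t u) := by
  obtain ⟨D, hD⟩ := hu
  have hc : Continuous fun b : SL(2, ℝ) => dist (I : ℍ) ((aM t * b) • I) :=
    continuous_const.dist ((continuous_const.mul continuous_id).smul continuous_const)
  obtain ⟨B, hB⟩ := ((MEX_box D).image hc).bddAbove
  refine ⟨B, fun g h hne => ?_⟩
  have h1 : u ((g * aM t)⁻¹ * h) ≠ 0 := by
    rw [stK] at hne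
    exact right_ne_zero_of_mul hne
  have h2 := hB ⟨(g * aM t)⁻¹ * h, hD _ h1, rfl⟩
  have h3 : aM t * ((g * aM t)⁻¹ * h) = g⁻¹ * h := by group
  have h4 : dist (I : ℍ) ((g⁻¹ * h) • I) = dist (g • I : ℍ) (h • I) := by
    rw [← dist_smul g (I : ℍ) ((g⁻¹ * h) • I), ← mul_smul]
    congr 2
    group
  simp only at h2
  rw [h3, h4] at h2
  exact h2

theorem MEX_R_it (V : ℍ → ℝ) (K t : ℝ) (u : SL(2, ℝ) → ℂ) (hu : ∃ D : ℝ, ∀ b, u b ≠ 0 → ∀ i j, |b.1 i j| ≤ D) (n : ℕ) :
    MEX_R (itK V K t u n) := by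
  induction n with
  | zero => exact MEX_R_st V K t u hu
  | succ n ih => exact MEX_R_cmp (MEX_R_st V K t u hu) ih

theorem MEX_R_wd (V : ℍ → ℝ) (K t : ℝ) (u : SL(2, ℝ) → ℂ) (A : Set SL(2, ℝ))
    (hu : ∃ D : ℝ, ∀ b, u b ≠ 0 → ∀ i j, |b.1 i j| ≤ D) (l : List ℕ) : MEX_R (wdK V K t u A l) := by
  induction l with
  | nil => exact ⟨0, fun g h hne => absurd rfl hne⟩
  | cons n l ih =>
    cases l with
    | nil =>
      obtain ⟨D, hD⟩ := MEX_R_it V K t u hu n
      refine ⟨D, fun g h hne => hD g h ?_⟩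
      exact right_ne_zero_of_mul (left_ne_zero_of_mul hne)
    | cons m l =>
      obtain ⟨D, hD⟩ := MEX_R_it V K t u hu n
      refine MEX_R_cmp ⟨D, fun g h hne => hD g h (right_ne_zero_of_mul hne)⟩ ih

theorem MEX_proof : MEX_stmt := by
  intro Γ F K t u A l J χ hΓ hF hχ hu huB huD hA hAΓ
  have : SecondCountableTopology SL(2, ℝ) := GLC.2.1
  have hs : SigmaFinite mG := (GMG GLC).2.2.1
  have := hs
  have : Countable Γ := MEX_count hΓ
  have hW := MEX_wd χ K t u A hs (fun j => (hχ j).1) hu hA l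
  -- the sum over `Γ`
  have hper : Measurable fun p : ((Fin J → ℝ) × SL(2, ℝ)) × SL(2, ℝ) =>
      perK Γ (wdK (VV χ p.1.1) K t u A l) p.1.2 p.2 := by
    refine measurable_of_tendsto_metrizable' (f := fun (s : Finset Γ) (p : ((Fin J → ℝ) × SL(2, ℝ)) × SL(2, ℝ)) =>
      ∑ γ ∈ s, wdK (VV χ p.1.1) K t u A l p.1.2 ((γ : SL(2, ℝ)) * p.2)) atTop ?_ ?_
    · intro s
      refine Finset.measurable_sum s fun γ _ => ?_
      have h1 : Measurable fun p : ((Fin J → ℝ) × SL(2, ℝ)) × SL(2, ℝ) => (p.1, (γ : SL(2, ℝ)) * p.2) := by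
        refine measurable_fst.prodMk ?_
        exact (continuous_const.mul continuous_id).measurable.comp measurable_snd
      exact hW.comp h1
    · rw [tendsto_pi_nhds]
      intro p
      obtain ⟨D, hD⟩ := MEX_R_wd (VV χ p.1.1) K t u A huD l
      have hfin : (Function.support fun γ : Γ => wdK (VV χ p.1.1) K t u A l p.1.2 ((γ : SL(2, ℝ)) * p.2)).Finite := by
        refine (MEX_fin hΓ D p.1.2 p.2).subset ?_
        intro γ hγ
        exact hD _ _ hγ
      refine tendsto_nhds_of_eventually_eq ?_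
      filter_upwards [eventually_ge_atTop hfin.toFinset] with s hs'
      rw [perK]
      symm
      refine finsum_eq_sum_of_support_subset _ ?_
      intro γ hγ
      exact Finset.mem_coe.mpr (hs' (hfin.mem_toFinset.mpr hγ))
  have h2 : Measurable fun p : ((Fin J → ℝ) × SL(2, ℝ)) × SL(2, ℝ) =>
      ‖perK Γ (wdK (VV χ p.1.1) K t u A l) p.1.2 p.2‖ₑ ^ 2 := hper.enorm.pow_const 2
  have h3 : Measurable fun q : (Fin J → ℝ) × SL(2, ℝ) =>
      ∫⁻ h in dG F, ‖perK Γ (wdK (VV χ q.1) K t u A l) q.2 h‖ₑ ^ 2 ∂mG := h2.lintegral_prod_right'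
  exact h3.lintegral_prod_right'

end

end Pool.Agent.RPQ
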