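import Pool.Agent.helper98.RPQ.SpecR

set_option autoImplicit false

open scoped MatrixGroups ContDiff Topology UpperHalfPlane ComplexConjugate ENNReal
open UpperHalfPlane MeasureTheory Filter Set

namespace Pool.Agent.RPQ

open Pool.Agent.RS
open Pool.Agent.MS (BA BB st pf gk Dk amk)

noncomputable section

theorem MKS_nst (n : ℕ) (l : List ℕ) : nst (n :: l) = n + 1 + nst l := by
  simp [nst]

theorem MKS_mem (n : ℕ) (l : List ℕ) (j : ℕ) : j ∈ mks (n :: l) ↔ j = 0 ∨ ∃ i ∈ mks l, i + (n + 1) = j := by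
  simp [mks]

theorem MKS_list (l : List ℕ) : 0 ∈ mks l ∧ nst l ∈ mks l ∧ (∀ j ∈ mks l, j ≤ nst l) ∧
    (mks l).length = l.length + 1 := by
  induction l with
  | nil => simp [mks, nst]
  | cons n l ih =>
    obtain ⟨h1, h2, h3, h4⟩ := ih
    refine ⟨(MKS_mem n l 0).mpr (Or.inl rfl), ?_, ?_, ?_⟩
    · rw [MKS_mem]
      right
      refine ⟨nst l, h2, ?_⟩
      rw [MKS_nst]
      ring
    · intro j hj
      rw [MKS_mem] at hj
      rw [MKS_nst]
      rcases hj with rfl | ⟨i, hi, rfl⟩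
      · omega
      · have := h3 i hi
        omega
    · simp [mks, h4]

theorem MKS_pos (l : List ℕ) (hl : l ≠ []) : 1 ≤ nst l := by
  cases l with
  | nil => exact absurd rfl hl
  | cons n l =>
    rw [MKS_nst]
    omega

theorem MKS_sW {E : Type} [MulZeroOneClass E] (A : Set SL(2, ℝ)) (s : SL(2, ℝ) → SL(2, ℝ) → E) (n : ℕ) (l : List ℕ)
    (hl : l ≠ []) : (∀ j ≤ n, sW A (n :: l) s j = fun g h => (if j = 0 then A.indicator (fun _ => 1) g else 1) * s g h) ∧
    ∀ j, sW A (n :: l) s (n + 1 + j) = sW A l s j := by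
  have hp := MKS_pos l hl
  constructor
  · intro j hj
    funext g h
    have h1 : (j ∈ mks (n :: l)) = (j = 0) := by
      rw [MKS_mem]
      refine propext ⟨?_, fun h => Or.inl h⟩
      rintro (h | ⟨i, -, hi⟩)
      · exact h
      · omega
    have h2 : ¬ (j + 1 = nst (n :: l)) := by
      rw [MKS_nst]
      omega
    rw [sW, if_neg h2, mul_one]
    simp only [h1]
  · intro j
    funext g h
    have h1 : (n + 1 + j ∈ mks (n :: l)) = (j ∈ mks l) := by
      rw [MKS_mem]
      refine propext ⟨?_, fun h => Or.inr ⟨j, h, by ring⟩⟩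
      rintro (h | ⟨i, hi, hi'⟩)
      · omega
      · have : i = j := by omega
        rw [← this]
        exact hi
    have h2 : (n + 1 + j + 1 = nst (n :: l)) = (j + 1 = nst l) := by
      rw [MKS_nst]
      exact propext ⟨fun h => by omega, fun h => by omega⟩
    rw [sW, sW]
    simp only [h1, h2]

theorem MKS_prod {E : Type} [CommMonoidWithZero E] (A : Set SL(2, ℝ)) (s : SL(2, ℝ) → SL(2, ℝ) → E) (l : List ℕ)
    (w : ℕ → SL(2, ℝ)) (hl : l ≠ []) : ∏ j ∈ Finset.range (nst l), sW A l s j (w j) (w (j + 1)) =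
      {w : ℕ → SL(2, ℝ) | ∀ j ∈ mks l, w j ∈ A}.indicator (fun w => ∏ j ∈ Finset.range (nst l), s (w j) (w (j + 1))) w := by
  obtain ⟨h1, h2, h3, -⟩ := MKS_list l
  have hp := MKS_pos l hl
  by_cases hw : ∀ j ∈ mks l, w j ∈ A
  · have hw' : w ∈ {w : ℕ → SL(2, ℝ) | ∀ j ∈ mks l, w j ∈ A} := hw
    rw [Set.indicator_of_mem hw']
    refine Finset.prod_congr rfl fun j _ => ?_
    have e1 : (if j ∈ mks l then A.indicator (fun _ => (1 : E)) (w j) else 1) = 1 := by
      split_ifs with h
      · exact Set.indicator_of_mem (hw j h) _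
      · rfl
    have e2 : (if j + 1 = nst l then A.indicator (fun _ => (1 : E)) (w (j + 1)) else 1) = 1 := by
      split_ifs with h
      · rw [h]
        exact Set.indicator_of_mem (hw _ h2) _
      · rfl
    rw [sW, e1, e2, one_mul, mul_one]
  · have hw' : w ∉ {w : ℕ → SL(2, ℝ) | ∀ j ∈ mks l, w j ∈ A} := hw
    rw [Set.indicator_of_notMem hw']
    obtain ⟨i, hi, hiA⟩ : ∃ i ∈ mks l, w i ∉ A := by
      by_contra hcon
      apply hw
      intro j hj
      by_contra hj'
      exact hcon ⟨j, hj, hj'⟩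
    have hle := h3 i hi
    rcases Nat.lt_or_ge i (nst l) with hlt | hge
    · refine Finset.prod_eq_zero (Finset.mem_range.mpr hlt) ?_
      rw [sW, if_pos hi, Set.indicator_of_notMem hiA, zero_mul, zero_mul]
    · have hei : i = nst l := by omega
      refine Finset.prod_eq_zero (i := nst l - 1) (Finset.mem_range.mpr (by omega)) ?_
      have h4 : nst l - 1 + 1 = nst l := by omega
      rw [sW, if_pos h4, h4, ← hei, Set.indicator_of_notMem hiA, mul_zero]

theorem MKS_proof (hVXI : VXI_stmt) : MKS_stmt := by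
  refine ⟨MKS_list, MKS_pos, fun A s n l hl => MKS_sW A s n l hl, fun A s n l hl => MKS_sW A s n l hl, ?_, ?_⟩
  · intro A m t l w hl
    have h := MKS_prod A (fun g h => m ((g * aM t)⁻¹ * h)) l w hl
    refine h.trans ?_
    unfold inA
    by_cases hw : ∀ j ∈ mks l, w j ∈ A
    · have hw' : w ∈ {w : ℕ → SL(2, ℝ) | ∀ j ∈ mks l, w j ∈ A} := hw
      rw [Set.indicator_of_mem hw', Set.indicator_of_mem hw', one_mul]
      rfl
    · have hw' : w ∉ {w : ℕ → SL(2, ℝ) | ∀ j ∈ mks l, w j ∈ A} := hw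
      rw [Set.indicator_of_notMem hw', Set.indicator_of_notMem hw', zero_mul]
  · intro A V u κ t l w hl
    have h := MKS_prod A (stK V κ t u) l w hl
    refine h.trans ?_
    unfold wgt
    by_cases hw : ∀ j ∈ mks l, w j ∈ A
    · have hw' : w ∈ {w : ℕ → SL(2, ℝ) | ∀ j ∈ mks l, w j ∈ A} := hw
      rw [Set.indicator_of_mem hw', Set.indicator_of_mem hw']
      have h1 : ∀ j, stK V κ t u (w j) (w (j + 1)) =
          Complex.exp (((th V κ t (w j) : ℝ) : ℂ) * Complex.I) * u (ic t w j) := fun j => rfl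
      rw [Finset.prod_congr rfl fun j _ => h1 j, Finset.prod_mul_distrib, ← Complex.exp_sum]
      have h2 : TH V κ t (nst l) (w 0) (ic t w) = ∑ j ∈ Finset.range (nst l), th V κ t (w j) := by
        rw [TH]
        exact Finset.sum_congr rfl fun j _ => by rw [hVXI.1 t w j]
      rw [h2, ← Finset.sum_mul]
      push_cast
      rfl
    · have hw' : w ∉ {w : ℕ → SL(2, ℝ) | ∀ j ∈ mks l, w j ∈ A} := hw
      rw [Set.indicator_of_notMem hw', Set.indicator_of_notMem hw', mul_zero]

end

end Pool.Agent.RPQ
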