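import Pool.Agent.helper11.RPQ.SpecI

set_option autoImplicit false

namespace Pool.Agent.RPQ

open Pool.Agent.RS
open Pool.Agent.MS (BA BB st pf gk Dk amk)

theorem GI2_proof : GI2_stmt := by
  intro δ R1 hδ hδ1
  refine ⟨|R1| + 4 ^ 10 + 10, by have := abs_nonneg R1; linarith, ?_⟩
  intro r t hr h1 h2
  have hR1 : R1 ≤ |R1| := le_abs_self R1
  have hR1' : 0 ≤ |R1| := abs_nonneg R1
  have hr0 : (4 : ℝ) ^ 10 + 10 ≤ r := by linarith
  have hrpos : 0 < r := by have : (0 : ℝ) < 4 ^ 10 + 10 := by positivity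
                           linarith
  have hr1 : 1 ≤ r := by have : (1 : ℝ) ≤ 4 ^ 10 + 10 := by norm_num
                         linarith
  set i : ℕ := ⌊r ^ 2⌋₊ with hi
  set R : ℝ := Real.sqrt i with hRdef
  have hi1 : (i : ℝ) ≤ r ^ 2 := Nat.floor_le (by positivity)
  have hi2 : r ^ 2 < i + 1 := Nat.lt_floor_add_one _
  have hR2 : R ^ 2 = i := Real.sq_sqrt (Nat.cast_nonneg i)
  have hR0 : 0 ≤ R := Real.sqrt_nonneg _
  have hRr : R ≤ r := by
    rw [hRdef]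
    calc Real.sqrt i ≤ Real.sqrt (r ^ 2) := Real.sqrt_le_sqrt hi1
      _ = r := Real.sqrt_sq hrpos.le
  have hRl : r - 1 / r ≤ R := by
    have h3 : (r - 1 / r) ^ 2 ≤ R ^ 2 := by
      have h4 : (r - 1 / r) ^ 2 = r ^ 2 - 2 + (1 / r) ^ 2 := by
        field_simp
        ring
      have h5 : (1 / r) ^ 2 ≤ 1 := by
        have h6 : 0 ≤ 1 / r := by positivity
        have h7 : 1 / r ≤ 1 := by
          rw [div_le_one hrpos]
          exact hr1
        nlinarith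
      rw [h4, hR2]
      linarith
    exact le_of_sq_le_sq h3 hR0
  have hr1r : 1 / r ≤ 1 := by
    rw [div_le_one hrpos]
    exact hr1
  have hRbig : |R1| + 4 ^ 10 + 9 ≤ R := by linarith
  have hR4 : (4 : ℝ) ^ 10 ≤ R := by linarith
  have hRge1 : 1 ≤ R := by
    have : (1 : ℝ) ≤ 4 ^ 10 := by norm_num
    linarith
  have hRpos : 0 < R := by linarith
  -- logarithms
  have hlogR : 1 ≤ Real.log R := by
    rw [Real.le_log_iff_exp_le hRpos]
    have h3 : Real.exp 1 ≤ 3 := (Real.exp_one_lt_d9.le).trans (by norm_num)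
    have h4 : (3 : ℝ) ≤ 4 ^ 10 := by norm_num
    linarith
  have hLLR : 0 ≤ Real.log (Real.log R) := Real.log_nonneg hlogR
  have hLL : Real.log (Real.log R) ≤ Real.log (Real.log r) :=
    Real.log_le_log (by linarith) (Real.log_le_log hRpos hRr)
  set E : ℝ := Real.exp (Real.log (Real.log R) ^ 3) with hE
  have hE1 : 1 ≤ E := by
    rw [hE, Real.one_le_exp_iff]
    positivity
  have hEr : E ≤ Real.exp (Real.log (Real.log r) ^ 3) := by
    rw [hE, Real.exp_le_exp]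
    exact pow_le_pow_left₀ hLLR hLL 3
  have ht0 : 0 < t := lt_of_lt_of_le (by positivity) h1
  -- powers of `R`
  have hR110 : (4 : ℝ) ≤ R ^ (1 / 10 : ℝ) := by
    have h3 : ((4 : ℝ) ^ 10) ^ (1 / 10 : ℝ) = 4 := by
      rw [← Real.rpow_natCast, ← Real.rpow_mul (by norm_num)]
      norm_num
    calc (4 : ℝ) = ((4 : ℝ) ^ 10) ^ (1 / 10 : ℝ) := h3.symm
      _ ≤ R ^ (1 / 10 : ℝ) := Real.rpow_le_rpow (by positivity) hR4 (by norm_num)
  have hP : 0 < R ^ (11 / 10 : ℝ) := Real.rpow_pos_of_pos hRpos _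
  have hPN : R ^ (-(11 / 10) : ℝ) = (R ^ (11 / 10 : ℝ))⁻¹ := Real.rpow_neg hR0 _
  have hPN0 : 0 < R ^ (-(11 / 10) : ℝ) := Real.rpow_pos_of_pos hRpos _
  have hP2 : R ^ (11 / 10 : ℝ) = R * R ^ (1 / 10 : ℝ) := by
    rw [← Real.rpow_one_add' hR0 (by norm_num)]
    norm_num
  set m : ℕ := ⌊t * R ^ (11 / 10 : ℝ)⌋₊ with hm
  have hm1 : (m : ℝ) ≤ t * R ^ (11 / 10 : ℝ) := Nat.floor_le (by positivity)
  have hm2 : t * R ^ (11 / 10 : ℝ) < m + 1 := Nat.lt_floor_add_one _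
  have hmt : (m : ℝ) * R ^ (-(11 / 10) : ℝ) ≤ t := by
    rw [hPN]
    calc (m : ℝ) * (R ^ (11 / 10 : ℝ))⁻¹ ≤ (t * R ^ (11 / 10 : ℝ)) * (R ^ (11 / 10 : ℝ))⁻¹ :=
          mul_le_mul_of_nonneg_right hm1 (by positivity)
      _ = t := by field_simp
  have hmt2 : t - R ^ (-(11 / 10) : ℝ) ≤ (m : ℝ) * R ^ (-(11 / 10) : ℝ) := by
    have h3 : t ≤ (m + 1 : ℝ) * (R ^ (11 / 10 : ℝ))⁻¹ := by
      calc t = (t * R ^ (11 / 10 : ℝ)) * (R ^ (11 / 10 : ℝ))⁻¹ := by field_simp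
        _ ≤ (m + 1 : ℝ) * (R ^ (11 / 10 : ℝ))⁻¹ := mul_le_mul_of_nonneg_right hm2.le (by positivity)
    rw [hPN]
    linarith
  have htR : t ≤ R ^ (-1 + δ / 2) := by
    refine h2.trans ?_
    exact Real.rpow_le_rpow_of_nonpos hRpos hRr (by linarith)
  refine ⟨i, m, ?_, ?_, ?_, ?_, ?_, ?_⟩
  · have h3 : (m : ℝ) ≤ i := by
      calc (m : ℝ) ≤ t * R ^ (11 / 10 : ℝ) := hm1
        _ ≤ R ^ (-1 + δ / 2) * R ^ (11 / 10 : ℝ) := mul_le_mul_of_nonneg_right htR hP.le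
        _ = R ^ (-1 + δ / 2 + 11 / 10) := (Real.rpow_add hRpos _ _).symm
        _ ≤ R ^ (2 : ℝ) := Real.rpow_le_rpow_of_exponent_le hRge1 (by linarith)
        _ = i := by
          rw [Real.rpow_two]
          exact hR2
    exact_mod_cast h3
  · linarith
  · rw [abs_of_nonneg (by linarith)]
    calc r - R ≤ 1 / r := by linarith
      _ ≤ 1 / R := one_div_le_one_div_of_le hRpos hRr
      _ = R ^ (-1 : ℝ) := by rw [Real.rpow_neg_one, one_div]
      _ ≤ R ^ (-(1 / 100) : ℝ) := Real.rpow_le_rpow_of_exponent_le hRge1 (by norm_num)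
  · rw [abs_of_nonneg (by linarith)]
    linarith
  · -- the lower bound
    have h3 : 3 / 4 * (E / R) ≤ Real.exp (Real.log (Real.log r) ^ 3) / r := by
      have h4 : 3 / 4 * r ≤ R := by linarith
      calc 3 / 4 * (E / R) = E * (3 / 4) / R := by ring
        _ ≤ E / r := by
          rw [div_le_div_iff₀ hRpos hrpos]
          nlinarith
        _ ≤ Real.exp (Real.log (Real.log r) ^ 3) / r := by
          gcongr
    have h5 : R ^ (-(11 / 10) : ℝ) ≤ 1 / 4 * (E / R) := by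
      rw [hPN, hP2]
      have h6 : (R * R ^ (1 / 10 : ℝ))⁻¹ ≤ (R * 4)⁻¹ := by
        apply inv_anti₀ (by positivity)
        exact mul_le_mul_of_nonneg_left hR110 hR0
      refine h6.trans ?_
      have h7 : (R * 4)⁻¹ = 1 / 4 * (1 / R) := by
        field_simp
      rw [h7]
      have h8 : 1 / R ≤ E / R := by
        gcongr
      linarith
    have h9 : E / (2 * R) = 3 / 4 * (E / R) - 1 / 4 * (E / R) := by
      field_simp
      ring
    rw [h9]
    linarith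
  · refine (hmt.trans htR).trans ?_
    exact Real.rpow_le_rpow_of_exponent_le hRge1 (by linarith)

end Pool.Agent.RPQ
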